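import Pool.Agent.Helper7.PX.Goals2

/-!
# MP_69be96_nt, project PX, packet ZA: many rich blocks, real form
-/

set_option autoImplicit false

open Finset Filter Topology

open scoped Classical

namespace Pool.Agent.Helper56.PX

open Pool.Agent.Helper7.PX

/-- comparison of the counts of primes -/
theorem np_le_pc {n h l : ℕ} {t : ℝ} (hl : l ≤ ⌊t⌋₊) : np n h l ≤ pc (n + h) t := by
  unfold np pc
  refine Finset.card_le_card_of_injOn (fun j => n + j) ?_ ?_
  · intro j hj
    have hj' := Finset.mem_filter.1 (Finset.mem_coe.1 hj)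
    have h1 := Finset.mem_Ioc.1 hj'.1
    refine Finset.mem_coe.2 (Finset.mem_filter.2 ⟨Finset.mem_Ioc.2 ⟨?_, ?_⟩, hj'.2⟩)
    · show n + h < n + j
      omega
    · show n + j ≤ n + h + ⌊t⌋₊
      omega
  · intro i _ j _ hij
    have : n + i = n + j := hij
    omega

theorem za (hFA : StmtFA) : Pool.Agent.Helper7.PX.StmtZA := by
  obtain ⟨c0, c, C, hc0, hc, hC, hFA⟩ := hFA
  refine ⟨min c0 (c / 8), 2 * C, lt_min hc0 (by positivity), fun k K ε hε hε1 => ?_⟩
  obtain ⟨lam0, x0, hx0⟩ := hFA (max k 1) K ε (le_max_right _ _) hε hε1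
  set m := max lam0 0 with hm
  have hm0 : 0 ≤ m := le_max_right _ _
  have hml : lam0 ≤ m := le_max_left _ _
  have hA : 0 < Real.exp (C * (2 + m)) := Real.exp_pos _
  have hT : Tendsto (fun x : ℝ => Real.log (Real.log ((⌊x⌋₊ : ℕ) : ℝ))) atTop atTop :=
    Real.tendsto_log_atTop.comp (Real.tendsto_log_atTop.comp
      (tendsto_natCast_atTop_atTop.comp tendsto_nat_floor_atTop))
  have h1 := hT.eventually_ge_atTop (max 1 (2 * (2 + m) / c))
  have h2 : ∀ᶠ x : ℝ in atTop, max x0 2 ≤ ⌊x⌋₊ :=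
    tendsto_nat_floor_atTop.eventually_ge_atTop (max x0 2)
  have h3 := eventually_ge_atTop (2 : ℝ)
  obtain ⟨X, hX⟩ := eventually_atTop.1 (h1.and (h2.and h3))
  refine ⟨1 + Real.exp (C * (2 + m)), X, fun x hx L hL0 hL H hHn hHK hHL hHg => ?_⟩
  obtain ⟨g1, g2, g3⟩ := hX x hx
  set y := ⌊x⌋₊ with hy
  have hy2 : 2 ≤ y := (le_max_right _ _).trans g2
  have hyx0 : x0 ≤ y := (le_max_left _ _).trans g2
  have hy2r : (2 : ℝ) ≤ y := by exact_mod_cast hy2
  have hyx : (y : ℝ) ≤ x := Nat.floor_le (by linarith)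
  have hxy : x < y + 1 := Nat.lt_floor_add_one x
  have hlogyx : Real.log y ≤ Real.log x := Real.log_le_log (by linarith) hyx
  have hlog2 : Real.log x ≤ 2 * Real.log y := by
    have e1 : x ≤ (y : ℝ) ^ 2 := by nlinarith
    have e2 := Real.log_le_log (by linarith : (0 : ℝ) < x) e1
    rw [Real.log_pow] at e2
    exact_mod_cast e2
  have g11 : (1 : ℝ) ≤ Real.log (Real.log y) := (le_max_left _ _).trans g1
  have g12 : 2 * (2 + m) / c ≤ Real.log (Real.log y) := (le_max_right _ _).trans g1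
  have hly : 0 < Real.log y := Real.log_pos (by linarith)
  have hlx : 0 < Real.log x := lt_of_lt_of_le hly hlogyx
  have hllx : Real.log (Real.log x) ≤ 2 * Real.log (Real.log y) := by
    have e1 := Real.log_le_log hlx hlog2
    rw [Real.log_mul (by norm_num) hly.ne'] at e1
    have e2 : Real.log 2 ≤ 1 := by
      have := Real.log_two_lt_d9
      linarith
    linarith
  -- the size of `lam`
  have hL2 : L ≤ c / 8 * Real.log (Real.log x) := by
    refine hL.trans (mul_le_mul_of_nonneg_right (min_le_right _ _) ?_)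
    have e1 : Real.log (Real.log y) ≤ Real.log (Real.log x) := Real.log_le_log hly hlogyx
    linarith
  have hlamc : 2 * L + 2 + m ≤ c * Real.log (Real.log y) := by
    have e1 : 2 * (2 + m) ≤ Real.log (Real.log y) * c := (div_le_iff₀ hc).1 g12
    have e2 : c / 8 * Real.log (Real.log x) ≤ c / 8 * (2 * Real.log (Real.log y)) :=
      mul_le_mul_of_nonneg_left hllx (by positivity)
    nlinarith
  have hLy : L * Real.log x ≤ 2 * L * Real.log y := by nlinarith
  have hεy : ε * Real.log y ≤ ε * Real.log x := mul_le_mul_of_nonneg_left hlogyx hε.le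
  have hεy1 : ε * Real.log y ≤ Real.log y := by nlinarith
  have hfl : ⌊ε * Real.log y⌋₊ ≤ ⌊ε * Real.log x⌋₊ := Nat.floor_le_floor hεy
  have key := hx0 y hyx0 (2 * L + 2 + m) (by linarith) hlamc H hHn hHK
    (fun h hh => by
      have e1 := hHL h hh
      nlinarith)
    (fun h hh h' hh' hlt => by
      have e1 := hHg h hh h' hh' hlt
      linarith)
  -- the sets
  have hsub : (((Ioc (y / 32) y).filter (fun n =>
      Wd y n (2 * L + 2 + m) H ⌊ε * Real.log y⌋₊ ∧
      c0 * H.card ≤ ((H.filter (fun h => max k 1 ≤ np n h ⌊ε * Real.log y⌋₊)).card : ℝ)) :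
        Finset ℕ) : Set ℕ) ⊆ {n : ℕ | (n : ℝ) ≤ x ∧
      (∀ q : ℕ, q.Prime → n < q → (q : ℝ) ≤ n + L * Real.log x →
        ∃ h ∈ H, n + h < q ∧ (q : ℝ) ≤ n + h + ε * Real.log x) ∧
      min c0 (c / 8) * H.card ≤
        ((H.filter (fun h => k ≤ pc (n + h) (ε * Real.log x))).card : ℝ)} := by
    intro n hn
    obtain ⟨a1, a2, a3⟩ := Finset.mem_filter.1 (Finset.mem_coe.1 hn)
    have a4 := Finset.mem_Ioc.1 a1
    refine ⟨?_, ?_, ?_⟩
    · exact (by exact_mod_cast a4.2 : (n : ℝ) ≤ y).trans hyx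
    · intro q hq hnq hqL
      obtain ⟨j, rfl⟩ := Nat.exists_eq_add_of_lt hnq
      have hj : ((j + 1 : ℕ) : ℝ) ≤ (2 * L + 2 + m) * Real.log y := by
        have e1 : ((n + j + 1 : ℕ) : ℝ) = (n : ℝ) + ((j + 1 : ℕ) : ℝ) := by
          push_cast
          ring
        rw [e1] at hqL
        nlinarith
      obtain ⟨h, hh, hjh⟩ := a2 (j + 1) (Finset.mem_Icc.2 ⟨by omega, Nat.le_floor hj⟩)
        (by rw [← add_assoc]; exact hq)
      have hjh' := Finset.mem_Ioc.1 hjh
      refine ⟨h, hh, by omega, ?_⟩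
      have e2 : n + j + 1 ≤ n + h + ⌊ε * Real.log y⌋₊ := by omega
      have e3 : ((n + j + 1 : ℕ) : ℝ) ≤ ((n + h + ⌊ε * Real.log y⌋₊ : ℕ) : ℝ) := by
        exact_mod_cast e2
      have e4 : ((⌊ε * Real.log y⌋₊ : ℕ) : ℝ) ≤ ε * Real.log y :=
        Nat.floor_le (by positivity)
      push_cast at e3 ⊢
      linarith
    · have e1 : (H.filter (fun h => max k 1 ≤ np n h ⌊ε * Real.log y⌋₊)).card ≤
          (H.filter (fun h => k ≤ pc (n + h) (ε * Real.log x))).card := by
        refine Finset.card_le_card ?_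
        intro h hh
        obtain ⟨b1, b2⟩ := Finset.mem_filter.1 hh
        exact Finset.mem_filter.2 ⟨b1, ((le_max_left _ _).trans b2).trans (np_le_pc hfl)⟩
      have e2 : min c0 (c / 8) * (H.card : ℝ) ≤ c0 * H.card :=
        mul_le_mul_of_nonneg_right (min_le_left _ _) (Nat.cast_nonneg _)
      exact (e2.trans a3).trans (by exact_mod_cast e1)
  have hfin : Set.Finite {n : ℕ | (n : ℝ) ≤ x ∧
      (∀ q : ℕ, q.Prime → n < q → (q : ℝ) ≤ n + L * Real.log x →
        ∃ h ∈ H, n + h < q ∧ (q : ℝ) ≤ n + h + ε * Real.log x) ∧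
      min c0 (c / 8) * H.card ≤
        ((H.filter (fun h => k ≤ pc (n + h) (ε * Real.log x))).card : ℝ)} := by
    refine (Set.finite_Iic y).subset ?_
    rintro n ⟨a1, -, -⟩
    exact Nat.le_floor a1
  have hcard := Set.ncard_le_ncard hsub hfin
  rw [Set.ncard_coe_finset] at hcard
  have hcard' : (_ : ℝ) ≤ _ := Nat.cast_le (α := ℝ).2 hcard
  refine le_trans ?_ hcard'
  refine le_trans ?_ key
  -- the exponents
  have hxy2 : x ≤ 2 * y := by linarith
  have hexp : Real.exp (-((1 + Real.exp (C * (2 + m))) * Real.exp (2 * C * L))) ≤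
      Real.exp (-Real.exp (C * (2 * L + 2 + m))) * (1 / 2) := by
    have e1 : Real.exp (-(1 : ℝ)) ≤ 1 / 2 := by
      rw [Real.exp_neg, one_div]
      have e2 : (2 : ℝ) ≤ Real.exp 1 := by
        have := Real.add_one_le_exp (1 : ℝ)
        linarith
      exact inv_anti₀ (by norm_num) e2
    have e3 : Real.exp (C * (2 * L + 2 + m)) = Real.exp (C * (2 + m)) * Real.exp (2 * C * L) := by
      rw [← Real.exp_add]
      congr 1
      ring
    have e4 : 1 ≤ Real.exp (2 * C * L) := Real.one_le_exp (by positivity)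
    calc Real.exp (-((1 + Real.exp (C * (2 + m))) * Real.exp (2 * C * L)))
        ≤ Real.exp (-Real.exp (C * (2 * L + 2 + m)) + -1) := by
          refine Real.exp_le_exp.2 ?_
          rw [e3]
          nlinarith
      _ = Real.exp (-Real.exp (C * (2 * L + 2 + m))) * Real.exp (-1) := Real.exp_add _ _
      _ ≤ Real.exp (-Real.exp (C * (2 * L + 2 + m))) * (1 / 2) :=
          mul_le_mul_of_nonneg_left e1 (Real.exp_pos _).le
  calc x * Real.exp (-((1 + Real.exp (C * (2 + m))) * Real.exp (2 * C * L)))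
      ≤ (2 * y) * (Real.exp (-Real.exp (C * (2 * L + 2 + m))) * (1 / 2)) :=
        mul_le_mul hxy2 hexp (Real.exp_pos _).le (by positivity)
    _ = y * Real.exp (-Real.exp (C * (2 * L + 2 + m))) := by ring

end Pool.Agent.Helper56.PX
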